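import Pool.Agent.Helper82.KZ.V

set_option autoImplicit false

namespace Pool.Agent.Helper77.KZ

open Finset
open scoped Pointwise

variable {n : ℕ}

theorem two_cancel (hodd : Odd n) {x y : ZMod n} (h : 2 * x = 2 * y) : x = y := by
  obtain ⟨k, hk⟩ := hodd
  have h2 : (2 * (k : ZMod n) + 1) = 0 := by
    have : ((2 * k + 1 : ℕ) : ZMod n) = 0 := by rw [← hk]; simp
    push_cast at this
    exact this
  linear_combination (-(k : ZMod n)) * h + (x - y) * h2

theorem struct [NeZero n] (hodd : Odd n) {g : ZMod n → ℤ} (hg : IsSign g)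
    (he : ∑ i, g i = 2) (hneg : ∃ i, g i = -1) (hτ : (TT g).card < n.minFac) {p : ZMod n}
    (hp : p ≠ 0) (hpm : ∀ t, g t = -1 → g (t + p) = 1 ∧ g (t - p) = 1)
    (hflat : ∀ δ : ZMod n, δ ≠ 0 → |∑ t, if g (t + δ) ≠ 0 then g t else 0| ≤ 1) :
    ∃ σ c, g c = 1 ∧ 2 * c ≠ σ ∧
      ∀ i, (if σ - i = c then 0 else g (σ - i)) = (if i = c then 0 else g i) := by
  classical
  set N : Finset (ZMod n) := univ.filter (fun i => g i = -1) with hN
  set P : Finset (ZMod n) := univ.filter (fun i => g i = 1) with hP
  have memN : ∀ i, i ∈ N ↔ g i = -1 := fun i => by simp [hN]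
  have memP : ∀ i, i ∈ P ↔ g i = 1 := fun i => by simp [hP]
  set q : ZMod n := 2 * p with hq
  have hq0 : q ≠ 0 := by
    intro h
    apply hp
    apply two_cancel hodd
    rw [← hq, h, mul_zero]
  -- sizes
  have hsum : (P.card : ℤ) - (N.card : ℤ) = 2 := by
    rw [← he]
    have h1 : ∀ i, g i = (if g i = 1 then (1 : ℤ) else 0) - (if g i = -1 then (1 : ℤ) else 0) := by
      intro i
      rcases hg i with h | h | h <;> simp [h]
    rw [sum_congr rfl (fun i _ => h1 i), sum_sub_distrib, ← sum_boole, ← sum_boole]
  have hNpos : 0 < N.card := by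
    obtain ⟨i, hi⟩ := hneg
    exact card_pos.2 ⟨i, (memN i).2 hi⟩
  have hTT : (TT g).card = P.card + N.card := by
    have : TT g = P ∪ N := by
      ext i
      simp only [TT, mem_filter, mem_univ, true_and, mem_union, memN, memP]
      rcases hg i with h | h | h <;> simp [h]
    rw [this, card_union_of_disjoint]
    rw [Finset.disjoint_left]
    intro i h1 h2
    have := (memP i).1 h1
    have := (memN i).1 h2
    omega
  -- flatness at q and -q
  set AP' : Finset (ZMod n) := univ.filter (fun t => g t = 1 ∧ g (t + q) = 1) with hAP'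
  set AN' : Finset (ZMod n) := univ.filter (fun t => g t = -1 ∧ g (t + q) = -1) with hAN'
  have hk : (∑ t, if g (t + q) ≠ 0 then g t else 0) + (∑ t, if g (t + -q) ≠ 0 then g t else 0)
      = 2 * (AP'.card : ℤ) - 2 * (AN'.card : ℤ) := by
    have h2 : (∑ t, if g (t + -q) ≠ 0 then g t else 0) = ∑ t, if g t ≠ 0 then g (t + q) else 0 := by
      rw [← Equiv.sum_comp (Equiv.addRight q)]
      apply sum_congr rfl
      intro t _
      simp
    rw [h2, ← sum_add_distrib]
    have h3 : ∀ t, ((if g (t + q) ≠ 0 then g t else 0) + (if g t ≠ 0 then g (t + q) else 0))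
        = 2 * (if g t = 1 ∧ g (t + q) = 1 then (1 : ℤ) else 0)
          - 2 * (if g t = -1 ∧ g (t + q) = -1 then (1 : ℤ) else 0) := by
      intro t
      rcases hg t with h | h | h <;> rcases hg (t + q) with h' | h' | h' <;> simp [h, h']
    rw [sum_congr rfl (fun t _ => h3 t), sum_sub_distrib, ← mul_sum, ← mul_sum, sum_boole,
      sum_boole]
  have hf1 := hflat q hq0
  have hf2 := hflat (-q) (neg_ne_zero.2 hq0)
  have hAPAN : (AP'.card : ℤ) ≤ AN'.card + 1 := by
    have h1 := le_of_abs_le hf1
    have h2 := le_of_abs_le hf2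
    omega
  have hAPN : N.card ≤ AP'.card := by
    have h1 : N.image (fun t => t - p) ⊆ AP' := by
      intro y hy
      obtain ⟨t, ht, rfl⟩ := mem_image.1 hy
      have h2 := hpm t ((memN t).1 ht)
      refine mem_filter.2 ⟨mem_univ _, h2.2, ?_⟩
      have : t - p + q = t + p := by rw [hq]; ring
      rw [this]; exact h2.1
    have h2 := card_le_card h1
    rwa [card_image_of_injective _ (sub_left_injective)] at h2
  -- N is a progression
  have hNap : AP q N := by
    refine ⟨hq0, ?_⟩
    have h1 : N + {0, q} = N ∪ N.image (fun t => t + q) := by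
      ext y
      constructor
      · intro hy
        obtain ⟨x, hx, z, hz, rfl⟩ := mem_add.1 hy
        simp only [mem_insert, mem_singleton] at hz
        rcases hz with rfl | rfl
        · exact mem_union_left _ (by simpa using hx)
        · exact mem_union_right _ (mem_image.2 ⟨x, hx, rfl⟩)
      · intro hy
        rcases mem_union.1 hy with hy | hy
        · exact mem_add.2 ⟨y, hy, 0, by simp, by simp⟩
        · obtain ⟨x, hx, rfl⟩ := mem_image.1 hy
          exact mem_add.2 ⟨x, hx, q, by simp, rfl⟩
    have h2 : (N ∩ N.image (fun t => t + q)).card = AN'.card := by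
      have : N ∩ N.image (fun t => t + q) = AN'.image (fun t => t + q) := by
        ext y
        constructor
        · intro hy
          obtain ⟨hy1, hy2⟩ := mem_inter.1 hy
          obtain ⟨t, ht, rfl⟩ := mem_image.1 hy2
          exact mem_image.2 ⟨t, mem_filter.2 ⟨mem_univ _, (memN t).1 ht, (memN _).1 hy1⟩, rfl⟩
        · intro hy
          obtain ⟨t, ht, rfl⟩ := mem_image.1 hy
          have ht' := (mem_filter.1 ht).2
          exact mem_inter.2 ⟨(memN _).2 ht'.2, mem_image.2 ⟨t, (memN t).2 ht'.1, rfl⟩⟩
      rw [this, card_image_of_injective _ (add_left_injective q)]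
    have h3 := card_union_add_card_inter N (N.image (fun t => t + q))
    rw [h2, card_image_of_injective _ (add_left_injective q)] at h3
    rw [h1]
    omega
  obtain ⟨a, ha⟩ := ap_explicit hNap (card_pos.1 hNpos) (by omega)
  set h := N.card with hh
  -- the set M
  set M : Finset (ZMod n) := (range (h + 1)).image (fun j : ℕ => a - p + (j : ZMod n) * q) with hM
  have hMcard : M.card = h + 1 := by
    rw [hM, card_image_of_injOn, card_range]
    intro i hi j hj hij
    have hi' : i < h + 1 := by simpa using hi
    have hj' : j < h + 1 := by simpa using hj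
    exact orbit_inj hq0 (by omega) (by omega) (add_left_cancel hij)
  have hNmem : ∀ j : ℕ, j < h → a + (j : ZMod n) * q ∈ N := by
    intro j hj
    rw [ha]
    exact mem_image.2 ⟨j, mem_range.2 hj, rfl⟩
  have hMP : M ⊆ P := by
    intro y hy
    obtain ⟨j, hj, rfl⟩ := mem_image.1 hy
    have hj' := mem_range.1 hj
    rcases Nat.lt_or_ge j h with hjh | hjh
    · have h1 := hpm _ ((memN _).1 (hNmem j hjh))
      rw [memP]
      have : a - p + (j : ZMod n) * q = a + (j : ZMod n) * q - p := by ring
      rw [this]; exact h1.2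
    · have h1 := hpm _ ((memN _).1 (hNmem (j - 1) (by omega)))
      rw [memP]
      have : a - p + (j : ZMod n) * q = a + ((j - 1 : ℕ) : ZMod n) * q + p := by
        rw [Nat.cast_sub (by omega : 1 ≤ j), hq]; push_cast; ring
      rw [this]; exact h1.1
  have hPM : (P \ M).card = 1 := by
    rw [card_sdiff_of_subset hMP, hMcard]
    omega
  obtain ⟨c, hc⟩ := card_eq_one.1 hPM
  have hcmem : c ∈ P \ M := by rw [hc]; simp
  have hcP := (mem_sdiff.1 hcmem).1
  have hcM := (mem_sdiff.1 hcmem).2
  have hP' : ∀ i, g i = 1 ↔ i ∈ M ∨ i = c := by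
    intro i
    rw [← memP]
    constructor
    · intro hi
      by_cases hiM : i ∈ M
      · exact Or.inl hiM
      · right
        have : i ∈ P \ M := mem_sdiff.2 ⟨hi, hiM⟩
        rw [hc] at this
        simpa using this
    · rintro (hi | hi)
      · exact hMP hi
      · rw [hi]; exact hcP
  set σ : ZMod n := 2 * a + ((h - 1 : ℕ) : ZMod n) * q with hσ
  have hNsym : ∀ i, i ∈ N → σ - i ∈ N := by
    intro i hi
    rw [ha] at hi
    obtain ⟨j, hj, rfl⟩ := mem_image.1 hi
    have hj' := mem_range.1 hj
    have : σ - (a + (j : ZMod n) * q) = a + ((h - 1 - j : ℕ) : ZMod n) * q := by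
      rw [hσ, Nat.cast_sub (by omega : j ≤ h - 1)]; ring
    rw [this]
    exact hNmem _ (by omega)
  have hMsym : ∀ i, i ∈ M → σ - i ∈ M := by
    intro i hi
    obtain ⟨j, hj, rfl⟩ := mem_image.1 hi
    have hj' := mem_range.1 hj
    refine mem_image.2 ⟨h - j, mem_range.2 (by omega), ?_⟩
    rw [hσ, Nat.cast_sub (by omega : j ≤ h), Nat.cast_sub (by omega : 1 ≤ h), hq]
    push_cast; ring
  have hNsym' : ∀ i, σ - i ∈ N ↔ i ∈ N := by
    intro i
    constructor
    · intro hi
      have := hNsym _ hi
      simpa using this
    · exact hNsym i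
  have hMsym' : ∀ i, σ - i ∈ M ↔ i ∈ M := by
    intro i
    constructor
    · intro hi
      have := hMsym _ hi
      simpa using this
    · exact hMsym i
  refine ⟨σ, c, (memP c).1 hcP, ?_, ?_⟩
  · intro h2c
    rcases Nat.even_or_odd h with hev | hod
    · obtain ⟨k, hk⟩ := hev
      have hcc : c = a - p + (k : ZMod n) * q := by
        apply two_cancel hodd
        rw [h2c, hσ, Nat.cast_sub (by omega : 1 ≤ h), hk, hq]
        push_cast; ring
      apply hcM
      rw [hcc]
      exact mem_image.2 ⟨k, mem_range.2 (by omega), rfl⟩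
    · obtain ⟨k, hk⟩ := hod
      have hcc : c = a + (k : ZMod n) * q := by
        apply two_cancel hodd
        rw [h2c, hσ, Nat.cast_sub (by omega : 1 ≤ h), hk]
        push_cast; ring
      have h1 : c ∈ N := by
        rw [hcc]; exact hNmem k (by omega)
      have h2 := (memN c).1 h1
      have h3 := (memP c).1 hcP
      omega
  · have key : ∀ i, (if i = c then 0 else g i) = (if i ∈ N then -1 else if i ∈ M then 1 else 0) := by
      intro i
      by_cases hi : i = c
      · subst hi
        have h3 := (memP i).1 hcP
        have h4 : i ∉ N := by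
          intro h5
          have := (memN i).1 h5
          omega
        simp [h4, hcM]
      · rcases hg i with h1 | h1 | h1
        · have h4 : i ∉ N := by
            intro h5
            have := (memN i).1 h5
            omega
          have h5 : i ∉ M := by
            intro h6
            have := (hP' i).2 (Or.inl h6)
            omega
          simp [hi, h1, h4, h5]
        · have h4 : i ∉ N := by
            intro h5
            have := (memN i).1 h5
            omega
          have h5 : i ∈ M := by
            rcases (hP' i).1 h1 with h6 | h6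
            · exact h6
            · exact (hi h6).elim
          simp [hi, h1, h4, h5]
        · have h4 : i ∈ N := (memN i).2 h1
          simp [hi, h1, h4]
    intro i
    rw [key i, key (σ - i)]
    simp only [hNsym', hMsym']

end Pool.Agent.Helper77.KZ
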