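import Pool.Agent.Helper77.KZ.Defs

set_option autoImplicit false

namespace Pool.Agent.Helper77.KZ

open Finset
open scoped Pointwise

variable {n : ℕ}

theorem cd [NeZero n] (hn : n ≠ 1) {A B : Finset (ZMod n)} (hA : A.Nonempty) (hB : B.Nonempty)
    (h : (A + B).card < n.minFac) : A.card + B.card ≤ (A + B).card + 1 := by
  have h1 := cauchy_davenport_minOrder_add hA hB
  rw [ZMod.minOrder (NeZero.ne n) hn] at h1
  rcases min_le_iff.1 h1 with h2 | h2
  · have : n.minFac ≤ (A + B).card := by exact_mod_cast h2
    omega
  · have h3 : A.card + B.card - 1 ≤ (A + B).card := by exact_mod_cast h2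
    omega

theorem le_addOrderOf {d : ZMod n} (hd : d ≠ 0) (hn : n ≠ 0) : n.minFac ≤ addOrderOf d := by
  have h1 : addOrderOf d ∣ n := by
    apply addOrderOf_dvd_of_nsmul_eq_zero
    simp
  have h2 : addOrderOf d ≠ 1 := by
    intro h
    exact hd (AddMonoid.addOrderOf_eq_one_iff.1 h)
  have h3 : 0 < addOrderOf d := Nat.pos_of_dvd_of_pos h1 (Nat.pos_of_ne_zero hn)
  exact Nat.minFac_le_of_dvd (by omega) h1

theorem orbit_inj {d : ZMod n} (hd : d ≠ 0) {i j : ℕ} (hi : i < n.minFac) (hj : j < n.minFac)
    (h : (i : ZMod n) * d = (j : ZMod n) * d) : i = j := by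
  rcases Nat.eq_zero_or_pos n with hn | hn
  · subst hn
    have key : ∀ e : ℤ, e ≠ 0 → (i : ℤ) * e = (j : ℤ) * e → i = j := by
      intro e he h
      have := mul_right_cancel₀ he h
      exact_mod_cast this
    exact key d hd h
  · have key : ∀ i j : ℕ, i < j → j < n.minFac → (i : ZMod n) * d = (j : ZMod n) * d → False := by
      intro i j hij hj h
      have h1 : (j - i) • d = 0 := by
        rw [nsmul_eq_mul, Nat.cast_sub hij.le, sub_mul, h, sub_self]
      have h2 : addOrderOf d ∣ (j - i) := addOrderOf_dvd_of_nsmul_eq_zero h1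
      have h3 := Nat.le_of_dvd (by omega) h2
      have h4 := le_addOrderOf hd (by omega : n ≠ 0)
      omega
    rcases lt_trichotomy i j with h1 | h1 | h1
    · exact (key i j h1 hj h).elim
    · exact h1
    · exact (key j i h1 hi h.symm).elim

theorem no_invariant [NeZero n] {d : ZMod n} (hd : d ≠ 0) {X : Finset (ZMod n)} (hX : X.Nonempty)
    (hs : X.card < n.minFac) : ∃ x ∈ X, x + d ∉ X := by
  by_contra hcon
  push Not at hcon
  obtain ⟨x, hx⟩ := hX
  have h1 : ∀ j : ℕ, x + (j : ZMod n) * d ∈ X := by
    intro j
    induction j with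
    | zero => simpa using hx
    | succ j ih =>
      have := hcon _ ih
      have h2 : x + ((j + 1 : ℕ) : ZMod n) * d = x + (j : ZMod n) * d + d := by
        push_cast; ring
      rw [h2]; exact this
  have h2 : (range n.minFac).image (fun j : ℕ => x + (j : ZMod n) * d) ⊆ X := by
    intro y hy
    obtain ⟨j, _, rfl⟩ := mem_image.1 hy
    exact h1 j
  have h3 : ((range n.minFac).image (fun j : ℕ => x + (j : ZMod n) * d)).card = n.minFac := by
    rw [card_image_of_injOn, card_range]
    intro i hi j hj hij
    have hij' : x + (i : ZMod n) * d = x + (j : ZMod n) * d := hij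
    exact orbit_inj hd (by simpa using hi) (by simpa using hj) (add_left_cancel hij')
  have := card_le_card h2
  omega

/-- number of elements of `X` whose successor is missing -/
theorem ap_exits {d : ZMod n} {X : Finset (ZMod n)} (h : AP d X) :
    (X.filter (fun x => x + d ∉ X)).card ≤ 1 := by
  have h1 : X ∪ (X.filter (fun x => x + d ∉ X)).image (fun x => x + d) ⊆ X + {0, d} := by
    intro y hy
    rcases mem_union.1 hy with hy | hy
    · exact mem_add.2 ⟨y, hy, 0, by simp, by simp⟩
    · obtain ⟨x, hx, rfl⟩ := mem_image.1 hy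
      exact mem_add.2 ⟨x, (mem_filter.1 hx).1, d, by simp, rfl⟩
  have h2 : Disjoint X ((X.filter (fun x => x + d ∉ X)).image (fun x => x + d)) := by
    rw [Finset.disjoint_left]
    intro y hy hy2
    obtain ⟨x, hx, rfl⟩ := mem_image.1 hy2
    exact (mem_filter.1 hx).2 hy
  have h3 := card_le_card h1
  rw [card_union_of_disjoint h2, card_image_of_injective _ (add_left_injective d)] at h3
  have := h.2
  omega

theorem ap_explicit [NeZero n] {d : ZMod n} {X : Finset (ZMod n)} (h : AP d X) (hX : X.Nonempty)
    (hs : X.card < n.minFac) :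
    ∃ a : ZMod n, X = (Finset.range X.card).image (fun j : ℕ => a + (j : ZMod n) * d) := by
  have hd := h.1
  obtain ⟨e, he, he2⟩ := no_invariant hd hX hs
  -- every element of `X` is `e - j d` for some `j < card`
  have huniq : ∀ x ∈ X, x + d ∉ X → x = e := by
    intro x hx hx2
    have h1 := ap_exits h
    exact card_le_one.1 h1 x (mem_filter.2 ⟨hx, hx2⟩) e (mem_filter.2 ⟨he, he2⟩)
  -- walking from `x`
  have hwalk : ∀ x ∈ X, ∃ j : ℕ, j < X.card ∧ e = x + (j : ZMod n) * d ∧
      ∀ i ≤ j, x + (i : ZMod n) * d ∈ X := by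
    intro x hx
    -- first exit
    have hex : ∃ j : ℕ, x + ((j + 1 : ℕ) : ZMod n) * d ∉ X := by
      by_contra hcon
      push Not at hcon
      have h2 : (range n.minFac).image (fun j : ℕ => x + ((j + 1 : ℕ) : ZMod n) * d) ⊆ X := by
        intro y hy
        obtain ⟨j, _, rfl⟩ := mem_image.1 hy
        exact hcon j
      have h3 : ((range n.minFac).image (fun j : ℕ => x + ((j + 1 : ℕ) : ZMod n) * d)).card
          = n.minFac := by
        rw [card_image_of_injOn, card_range]
        intro i hi j hj hij
        have hij' : x + ((i + 1 : ℕ) : ZMod n) * d = x + ((j + 1 : ℕ) : ZMod n) * d := hij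
        apply orbit_inj hd (by simpa using hi) (by simpa using hj)
        push_cast at hij'
        linear_combination hij'
      have := card_le_card h2
      omega
    classical
    let j := Nat.find hex
    have hj : x + ((j + 1 : ℕ) : ZMod n) * d ∉ X := Nat.find_spec hex
    have hj2 : ∀ i < j, x + ((i + 1 : ℕ) : ZMod n) * d ∈ X := by
      intro i hi
      by_contra hcon
      exact Nat.find_min hex hi hcon
    have hj3 : ∀ i ≤ j, x + (i : ZMod n) * d ∈ X := by
      intro i hi
      rcases Nat.eq_zero_or_pos i with h0 | h0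
      · subst h0; simpa using hx
      · have := hj2 (i - 1) (by omega)
        rwa [Nat.sub_add_cancel h0] at this
    have hje : e = x + (j : ZMod n) * d := by
      have h4 := huniq (x + (j : ZMod n) * d) (hj3 j le_rfl) (by
        have : x + (j : ZMod n) * d + d = x + ((j + 1 : ℕ) : ZMod n) * d := by push_cast; ring
        rw [this]; exact hj)
      exact h4.symm
    refine ⟨j, ?_, hje, hj3⟩
    -- j + 1 distinct elements
    by_contra hcon
    push Not at hcon
    have h2 : (range (X.card + 1)).image (fun i : ℕ => x + (i : ZMod n) * d) ⊆ X := by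
      intro y hy
      obtain ⟨i, hi, rfl⟩ := mem_image.1 hy
      exact hj3 i (by have := mem_range.1 hi; omega)
    have h3 : ((range (X.card + 1)).image (fun i : ℕ => x + (i : ZMod n) * d)).card
        = X.card + 1 := by
      rw [card_image_of_injOn, card_range]
      intro i hi j hj hij
      have hi' : i < X.card + 1 := by simpa using hi
      have hj' : j < X.card + 1 := by simpa using hj
      have hij' : x + (i : ZMod n) * d = x + (j : ZMod n) * d := hij
      exact orbit_inj hd (by omega) (by omega) (add_left_cancel hij')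
    have := card_le_card h2
    omega
  refine ⟨e - ((X.card - 1 : ℕ) : ZMod n) * d, ?_⟩
  apply eq_of_subset_of_card_le
  · intro x hx
    obtain ⟨j, hj, hje, _⟩ := hwalk x hx
    refine mem_image.2 ⟨X.card - 1 - j, mem_range.2 (by omega), ?_⟩
    rw [Nat.cast_sub (by omega : j ≤ X.card - 1), hje]
    ring
  · calc _ ≤ (range X.card).card := card_image_le
      _ = X.card := card_range _

theorem ap_of_image {d a : ZMod n} (hd : d ≠ 0) {m : ℕ} {X : Finset (ZMod n)}
    (hX : X ⊆ (Finset.range m).image (fun j : ℕ => a + (j : ZMod n) * d)) (hm : m ≤ X.card) :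
    AP d X := by
  have hXe : X = (Finset.range m).image (fun j : ℕ => a + (j : ZMod n) * d) := by
    apply eq_of_subset_of_card_le hX
    calc _ ≤ (range m).card := card_image_le
      _ = m := card_range _
      _ ≤ X.card := hm
  refine ⟨hd, ?_⟩
  have h1 : X + {0, d} ⊆ (Finset.range (m + 1)).image (fun j : ℕ => a + (j : ZMod n) * d) := by
    intro y hy
    obtain ⟨x, hx, z, hz, rfl⟩ := mem_add.1 hy
    obtain ⟨j, hj, rfl⟩ := mem_image.1 (hX hx)
    have hj' := mem_range.1 hj
    simp only [mem_insert, mem_singleton] at hz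
    rcases hz with rfl | rfl
    · exact mem_image.2 ⟨j, mem_range.2 (by omega), by simp⟩
    · exact mem_image.2 ⟨j + 1, mem_range.2 (by omega), by push_cast; ring⟩
  calc _ ≤ _ := card_le_card h1
    _ ≤ (range (m + 1)).card := card_image_le
    _ = m + 1 := card_range _
    _ ≤ X.card + 1 := by omega

theorem ap_neg {d : ZMod n} {X : Finset (ZMod n)} (h : AP d (-X)) : AP d X := by
  refine ⟨h.1, ?_⟩
  have h1 : X + {0, d} ⊆ (-(-X + {0, d})).image (fun y => y + d) := by
    intro y hy
    obtain ⟨x, hx, z, hz, rfl⟩ := mem_add.1 hy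
    simp only [mem_insert, mem_singleton] at hz
    rcases hz with rfl | rfl
    · refine mem_image.2 ⟨x - d, ?_, by simp⟩
      rw [mem_neg']
      exact mem_add.2 ⟨-x, by simpa using hx, d, by simp, by ring⟩
    · refine mem_image.2 ⟨x, ?_, rfl⟩
      rw [mem_neg']
      exact mem_add.2 ⟨-x, by simpa using hx, 0, by simp, by ring⟩
  have h2 := card_le_card h1
  rw [card_image_of_injective _ (add_left_injective d), card_neg] at h2
  have h3 := h.2
  rw [card_neg] at h3
  omega

theorem ap_right [NeZero n] (hn : n ≠ 1) {d : ZMod n} {A B : Finset (ZMod n)} (hA : AP d A)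
    (hA2 : 2 ≤ A.card) (hB : B.Nonempty) (h : (A + B).card + 1 ≤ A.card + B.card)
    (hs : (A + B).card < n.minFac) : AP d B := by
  refine ⟨hA.1, ?_⟩
  set A₁ := A.filter (fun x => ¬ (x + d ∉ A)) with hA₁
  have h1 := ap_exits hA
  have h2 := card_filter_add_card_filter_not (s := A) (fun x => x + d ∉ A)
  have h3 : A₁.card + 1 ≥ A.card := by rw [hA₁]; omega
  have h4 : A₁.Nonempty := card_pos.1 (by omega)
  have h5 : A₁ + (B + {0, d}) ⊆ A + B := by
    intro y hy
    obtain ⟨x, hx, w, hw, rfl⟩ := mem_add.1 hy
    obtain ⟨b, hb, z, hz, rfl⟩ := mem_add.1 hw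
    have hx' := mem_filter.1 hx
    simp only [mem_insert, mem_singleton] at hz
    rcases hz with rfl | rfl
    · exact mem_add.2 ⟨x, hx'.1, b, hb, by ring⟩
    · exact mem_add.2 ⟨x + z, by simpa using hx'.2, b, hb, by ring⟩
  have h6 := card_le_card h5
  have h7 : (B + {0, d}).Nonempty := hB.add (by simp)
  have h8 := cd hn h4 h7 (by omega)
  omega

theorem ap_add [NeZero n] (hn : n ≠ 1) {d : ZMod n} {A B : Finset (ZMod n)} (hA : AP d A)
    (hB : AP d B) (hAne : A.Nonempty) (hBne : B.Nonempty) (hs : (A + B).card < n.minFac) :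
    AP d (A + B) := by
  have hcA : A.card ≤ (A + B).card := card_le_card_add_right hBne
  have hcB : B.card ≤ (A + B).card := card_le_card_add_left hAne
  obtain ⟨a, ha⟩ := ap_explicit hA hAne (by omega)
  obtain ⟨b, hb⟩ := ap_explicit hB hBne (by omega)
  have h1 := cd hn hAne hBne hs
  apply ap_of_image (a := a + b) (m := A.card + B.card - 1) hA.1
  · intro y hy
    obtain ⟨x, hx, z, hz, rfl⟩ := mem_add.1 hy
    rw [ha] at hx
    rw [hb] at hz
    obtain ⟨i, hi, rfl⟩ := mem_image.1 hx
    obtain ⟨j, hj, rfl⟩ := mem_image.1 hz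
    have hi' := mem_range.1 hi
    have hj' := mem_range.1 hj
    exact mem_image.2 ⟨i + j, mem_range.2 (by omega), by push_cast; ring⟩
  · omega

theorem ap_of_sum [NeZero n] (hn : n ≠ 1) {d : ZMod n} {A B : Finset (ZMod n)}
    (hAne : A.Nonempty) (hBne : B.Nonempty)
    (h : (A + B).card + 1 ≤ A.card + B.card) (hs : (A + B).card + 2 ≤ n.minFac)
    (hS : AP d (A + B)) : AP d A := by
  have hd := hS.1
  obtain ⟨s, hs0⟩ := ap_explicit hS (hAne.add hBne) (by omega)
  have hSpos : 0 < (A + B).card := card_pos.2 (hAne.add hBne)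
  have hsS : s ∈ A + B := by
    rw [hs0]
    exact mem_image.2 ⟨0, mem_range.2 hSpos, by simp⟩
  obtain ⟨a0, ha0, b0, hb0, hab⟩ := mem_add.1 hsS
  have hBsub : ∀ b ∈ B, ∃ j < (A + B).card, b = b0 + (j : ZMod n) * d := by
    intro b hb
    have h1 : a0 + b ∈ A + B := add_mem_add ha0 hb
    rw [hs0] at h1
    obtain ⟨j, hj, hj2⟩ := mem_image.1 h1
    exact ⟨j, mem_range.1 hj, by linear_combination -hab - hj2⟩
  have hAsub : ∀ a ∈ A, ∃ j < (A + B).card, a = a0 + (j : ZMod n) * d := by
    intro a ha
    have h1 : a + b0 ∈ A + B := add_mem_add ha hb0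
    rw [hs0] at h1
    obtain ⟨j, hj, hj2⟩ := mem_image.1 h1
    exact ⟨j, mem_range.1 hj, by linear_combination -hab - hj2⟩
  set L := (A + B).card with hL
  set D := (Finset.range (n.minFac - L)).image (fun j : ℕ => (s + (L : ZMod n) * d) + (j : ZMod n) * d)
    with hD
  have hDcard : D.card = n.minFac - L := by
    rw [hD, card_image_of_injOn, card_range]
    intro i hi j hj hij
    have hi' : i < n.minFac - L := by simpa using hi
    have hj' : j < n.minFac - L := by simpa using hj
    exact orbit_inj hd (by omega) (by omega) (add_left_cancel hij)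
  have hDap : AP d D := ap_of_image (a := s + (L : ZMod n) * d) (m := n.minFac - L) hd
    (by rw [hD]) (by omega)
  have hDS : ∀ x ∈ D, x ∉ A + B := by
    intro x hx hx2
    rw [hs0] at hx2
    obtain ⟨i, hi, rfl⟩ := mem_image.1 hx
    obtain ⟨j, hj, hj2⟩ := mem_image.1 hx2
    have hi' := mem_range.1 hi
    have hj' := mem_range.1 hj
    have h1 : ((L + i : ℕ) : ZMod n) * d = (j : ZMod n) * d := by
      push_cast
      linear_combination -hj2
    have := orbit_inj hd (by omega) (by omega) h1
    omega
  have hsub : D + (-A) ⊆ ((Finset.range n.minFac).image (fun j : ℕ => b0 + (j : ZMod n) * d)) \ B := by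
    intro y hy
    obtain ⟨x, hx, z, hz, rfl⟩ := mem_add.1 hy
    have hz' : -z ∈ A := mem_neg'.1 hz
    refine mem_sdiff.2 ⟨?_, ?_⟩
    · obtain ⟨i, hi, hx1⟩ := mem_image.1 hx
      obtain ⟨j, hj, hj2⟩ := hAsub _ hz'
      have hi' := mem_range.1 hi
      refine mem_image.2 ⟨L + i - j, mem_range.2 (by omega), ?_⟩
      rw [Nat.cast_sub (by omega), ← hx1]
      push_cast
      linear_combination hab + hj2
    · intro hB'
      apply hDS x hx
      have : x = -z + (x + z) := by ring
      rw [this]
      exact add_mem_add hz' hB'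
  have hBin : B ⊆ (Finset.range n.minFac).image (fun j : ℕ => b0 + (j : ZMod n) * d) := by
    intro b hb
    obtain ⟨j, hj, hj2⟩ := hBsub b hb
    exact mem_image.2 ⟨j, mem_range.2 (by omega), hj2.symm⟩
  have hcard := card_le_card hsub
  rw [card_sdiff_of_subset hBin] at hcard
  have hle : ((Finset.range n.minFac).image (fun j : ℕ => b0 + (j : ZMod n) * d)).card ≤ n.minFac := by
    calc _ ≤ (range n.minFac).card := card_image_le
      _ = _ := card_range _
  have hBpos : 0 < B.card := card_pos.2 hBne
  have hBle : B.card ≤ L := card_le_card_add_left hAne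
  have hAle : A.card ≤ L := card_le_card_add_right hBne
  have hneg : (-A).card = A.card := card_neg A
  apply ap_neg
  apply ap_right hn hDap (by omega) (by simpa using hAne.neg)
  · rw [hneg, hDcard]
    omega
  · omega

theorem ap_pair {d b : ZMod n} (hd : d ≠ 0) : AP d ({b, b + d} : Finset (ZMod n)) := by
  apply ap_of_image (a := b) (m := 2) hd
  · intro y hy
    simp only [mem_insert, mem_singleton] at hy
    rcases hy with rfl | rfl
    · exact mem_image.2 ⟨0, by simp, by simp⟩
    · exact mem_image.2 ⟨1, by simp, by simp⟩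
  · have h : b ≠ b + d := by
      intro h
      apply hd
      exact (add_eq_left.1 h.symm)
    rw [card_pair h]

theorem ap_translate {d t : ZMod n} {X : Finset (ZMod n)} (h : AP d (X.image (fun x => x + t))) :
    AP d X := by
  refine ⟨h.1, ?_⟩
  have h1 : (X + {0, d}).image (fun x => x + t) ⊆ X.image (fun x => x + t) + {0, d} := by
    intro y hy
    obtain ⟨w, hw, rfl⟩ := mem_image.1 hy
    obtain ⟨x, hx, z, hz, rfl⟩ := mem_add.1 hw
    exact mem_add.2 ⟨x + t, mem_image.2 ⟨x, hx, rfl⟩, z, hz, by ring⟩
  have h2 := card_le_card h1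
  have h3 := h.2
  rw [card_image_of_injective _ (add_left_injective t)] at h2 h3
  omega

theorem vosper_aux [NeZero n] (hn : n ≠ 1) (N : ℕ) : ∀ (A B : Finset (ZMod n)), B.card = N →
    2 ≤ A.card → 2 ≤ B.card → (0 : ZMod n) ∈ B →
    (A + B).card + 1 ≤ A.card + B.card → (A + B).card + 2 ≤ n.minFac →
    ∃ d, AP d A ∧ AP d B := by
  induction N using Nat.strong_induction_on with
  | _ N ih =>
  intro A B hBN hA hB h0 h hs
  have hAne : A.Nonempty := card_pos.1 (by omega)
  have hBne : B.Nonempty := card_pos.1 (by omega)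
  rcases Nat.lt_or_ge 2 B.card with hB3 | hB2
  swap
  · -- two elements
    have hB2' : B.card = 2 := by omega
    obtain ⟨x, y, hxy, hBe⟩ := card_eq_two.1 hB2'
    have hd : y - x ≠ 0 := sub_ne_zero.2 hxy.symm
    have hap : AP (y - x) B := by
      have := ap_pair (b := x) hd
      rw [show x + (y - x) = y by ring] at this
      rw [hBe]; exact this
    refine ⟨y - x, ?_, hap⟩
    apply ap_right hn hap hB hAne
    · rw [add_comm B A]; omega
    · rw [add_comm B A]; omega
  · -- at least three elements
    let Be : ZMod n → Finset (ZMod n) := fun e => B.filter (fun b => e + b ∈ A)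
    let Ae : ZMod n → Finset (ZMod n) := fun e => A ∪ B.image (fun b => e + b)
    have hsum : ∀ e, Ae e + Be e ⊆ A + B := by
      intro e y hy
      obtain ⟨a, ha, b, hb, rfl⟩ := mem_add.1 hy
      have hb' := mem_filter.1 hb
      rcases mem_union.1 ha with ha | ha
      · exact add_mem_add ha hb'.1
      · obtain ⟨b', hb2, rfl⟩ := mem_image.1 ha
        have : e + b' + b = (e + b) + b' := by ring
        rw [this]
        exact add_mem_add hb'.2 hb2
    have hcard : ∀ e, (Ae e).card + (Be e).card = A.card + B.card := by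
      intro e
      have h1 : (A ∩ B.image (fun b => e + b)).card = (Be e).card := by
        have : A ∩ B.image (fun b => e + b) = (Be e).image (fun b => e + b) := by
          ext y
          constructor
          · intro hy
            obtain ⟨hy1, hy2⟩ := mem_inter.1 hy
            obtain ⟨b, hb, rfl⟩ := mem_image.1 hy2
            exact mem_image.2 ⟨b, mem_filter.2 ⟨hb, hy1⟩, rfl⟩
          · intro hy
            obtain ⟨b, hb, rfl⟩ := mem_image.1 hy
            have hb' := mem_filter.1 hb
            exact mem_inter.2 ⟨hb'.2, mem_image.2 ⟨b, hb'.1, rfl⟩⟩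
        rw [this, card_image_of_injective _ (add_right_injective e)]
      have h2 := card_union_add_card_inter A (B.image (fun b => e + b))
      rw [h1, card_image_of_injective _ (add_right_injective e)] at h2
      exact h2
    by_cases hex : ∃ e ∈ A, 2 ≤ (Be e).card ∧ (Be e).card < B.card
    · obtain ⟨e, he, h2, h3⟩ := hex
      have hss := card_le_card (hsum e)
      have hc := hcard e
      have hAe : A.card ≤ (Ae e).card := card_le_card subset_union_left
      have h0e : (0 : ZMod n) ∈ Be e := mem_filter.2 ⟨h0, by simpa using he⟩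
      obtain ⟨d, hd1, hd2⟩ := ih (Be e).card (by omega) (Ae e) (Be e) rfl (by omega) h2 h0e
        (by omega) (by omega)
      have hne1 : (Ae e).Nonempty := card_pos.1 (by omega)
      have hne2 : (Be e).Nonempty := card_pos.1 (by omega)
      have h4 := ap_add hn hd1 hd2 hne1 hne2 (by omega)
      have h5 := cd hn hne1 hne2 (by omega)
      have h6 : Ae e + Be e = A + B := eq_of_subset_of_card_le (hsum e) (by omega)
      rw [h6] at h4
      refine ⟨d, ap_of_sum hn hAne hBne h hs h4, ?_⟩
      apply ap_of_sum hn hBne hAne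
      · rw [add_comm B A]; omega
      · rw [add_comm B A]; omega
      · rw [add_comm B A]; exact h4
    · exfalso
      push Not at hex
      have hdich : ∀ e ∈ A, (Be e = B) ∨ (Be e).card ≤ 1 := by
        intro e he
        by_cases h2 : 2 ≤ (Be e).card
        · left
          apply eq_of_subset_of_card_le (filter_subset _ _)
          exact hex e he h2
        · right; omega
      set A' := A.filter (fun e => Be e = B) with hA'
      set A'' := A.filter (fun e => ¬ (Be e = B)) with hA''
      have hsplit : A'.card + A''.card = A.card := card_filter_add_card_filter_not (fun e => Be e = B)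
      have hA'B : A' + B ⊆ A := by
        intro y hy
        obtain ⟨e, he, b, hb, rfl⟩ := mem_add.1 hy
        have he' := mem_filter.1 he
        have hb2 : b ∈ Be e := by rw [he'.2]; exact hb
        exact (mem_filter.1 hb2).2
      have hAsub : A ⊆ A + B := by
        intro a ha
        have := add_mem_add ha h0
        simpa using this
      have hA''card : 2 ≤ A''.card := by
        rcases A'.eq_empty_or_nonempty with hemp | hne
        · rw [hemp] at hsplit
          simp at hsplit
          omega
        · have h1 := card_le_card hA'B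
          have h2 := card_le_card hAsub
          have h3 := cd hn hne hBne (by omega)
          omega
      have hA''ne : A''.Nonempty := card_pos.1 (by omega)
      have hBe : (B.erase 0).card = B.card - 1 := card_erase_of_mem h0
      have hBene : (B.erase 0).Nonempty := card_pos.1 (by omega)
      have hdisj : Disjoint (A'' + B.erase 0) A := by
        rw [Finset.disjoint_left]
        intro y hy hyA
        obtain ⟨e, he, b, hb, rfl⟩ := mem_add.1 hy
        have he' := mem_filter.1 he
        have hb' := mem_erase.1 hb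
        rcases hdich e he'.1 with h1 | h1
        · exact he'.2 h1
        · have hb2 : b ∈ Be e := mem_filter.2 ⟨hb'.2, hyA⟩
          have h02 : (0 : ZMod n) ∈ Be e := mem_filter.2 ⟨h0, by simpa using he'.1⟩
          exact hb'.1 (card_le_one.1 h1 b hb2 0 h02)
      have hsub2 : (A'' + B.erase 0) ∪ A ⊆ A + B := by
        apply union_subset _ hAsub
        exact add_subset_add (filter_subset _ _) (erase_subset _ _)
      have h1 := card_le_card hsub2
      rw [card_union_of_disjoint hdisj] at h1
      have h2 := cd hn hA''ne hBene (by omega)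
      omega

theorem vosper [NeZero n] (hn : n ≠ 1) {A B : Finset (ZMod n)} (hA : 2 ≤ A.card) (hB : 2 ≤ B.card)
    (h : (A + B).card + 1 ≤ A.card + B.card) (hs : (A + B).card + 2 ≤ n.minFac) :
    ∃ d, AP d A ∧ AP d B := by
  have hBne : B.Nonempty := card_pos.1 (by omega)
  obtain ⟨b, hb⟩ := hBne
  have hBc : (B.image (fun x => x + -b)).card = B.card :=
    card_image_of_injective _ (add_left_injective (-b))
  have hAB : (A + B.image (fun x => x + -b)).card = (A + B).card := by
    have : A + B.image (fun x => x + -b) = (A + B).image (fun x => x + -b) := by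
      ext y
      constructor
      · intro hy
        obtain ⟨a, ha, z, hz, rfl⟩ := mem_add.1 hy
        obtain ⟨x, hx, rfl⟩ := mem_image.1 hz
        exact mem_image.2 ⟨a + x, add_mem_add ha hx, by ring⟩
      · intro hy
        obtain ⟨w, hw, rfl⟩ := mem_image.1 hy
        obtain ⟨a, ha, x, hx, rfl⟩ := mem_add.1 hw
        exact mem_add.2 ⟨a, ha, x + -b, mem_image.2 ⟨x, hx, rfl⟩, by ring⟩
    rw [this, card_image_of_injective _ (add_left_injective (-b))]
  obtain ⟨d, h1, h2⟩ := vosper_aux hn _ A (B.image (fun x => x + -b)) rfl hA (by omega)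
    (mem_image.2 ⟨b, hb, by simp⟩) (by omega) (by omega)
  exact ⟨d, h1, ap_translate h2⟩

end Pool.Agent.Helper77.KZ
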